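import Pool.Agent.Helper13.JO.Uniform
import Pool.Agent.Helper18.JO.Dens2
import Pool.Agent.Helper64.JO.PrimeBound
import Pool.Agent.Helper35.JO.Ideals
import Pool.Agent.Helper14.JO.Selberg
import Pool.Agent.Helper7.JO.Odd

/-!
# MP_4d96c9_nt: Jones' conjecture, uniformly in the starting point
-/

set_option autoImplicit false
open Filter Topology Polynomial

namespace Pool.Agent.Results.MP_4d96c9_nt.UniformDensityZero

open Pool.Agent.Helper13.JO in
/-- Let `f = x² + bx + c` with `b, c ∈ ℤ` be stable and let its critical point `-b/2` have an infinite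
orbit. (1) For every `ε > 0` there is `M` such that, for all large `N`, at most `ε π(N)` primes `p ≤ N`
divide `f^n(r)` for some `n ≥ M` and some integer `r` (both may depend on `p`). (2) If `h(p) → ∞`, the
primes `p` dividing `f^n(r)` for some `n ≥ h(p)` and some integer `r` have natural density `0`. (3) For
every integer `α` no `f^n(α)`, `n ≥ 1`, is `0`, and the primes dividing `f^n(α)` for some `n ≥ 1` have
natural density `0`. -/
theorem result (b c : ℤ)
    (hstable : ∀ n : ℕ, 1 ≤ n → Irreducible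
      ((((X ^ 2 + C b * X + C c : ℤ[X]).comp)^[n] X).map (Int.castRingHom ℚ)))
    (hwander : (Set.range fun n : ℕ =>
      (fun x : ℚ => x ^ 2 + (b : ℚ) * x + (c : ℚ))^[n] (-(b : ℚ) / 2)).Infinite) :
    (∀ ε : ℝ, 0 < ε → ∃ M : ℕ, ∀ᶠ N : ℕ in atTop,
      ({p : ℕ | p ≤ N ∧ p.Prime ∧ ∃ n : ℕ, M ≤ n ∧ ∃ r : ℤ,
        (p : ℤ) ∣ (fun x : ℤ => x ^ 2 + b * x + c)^[n] r}.ncard : ℝ)
          ≤ ε * (Nat.primeCounting N : ℝ)) ∧
    (∀ h : ℕ → ℕ, Tendsto h atTop atTop → Tendsto (fun N : ℕ =>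
      ({p : ℕ | p ≤ N ∧ p.Prime ∧ ∃ n : ℕ, h p ≤ n ∧ ∃ r : ℤ,
        (p : ℤ) ∣ (fun x : ℤ => x ^ 2 + b * x + c)^[n] r}.ncard : ℝ) /
          (Nat.primeCounting N : ℝ)) atTop (𝓝 0)) ∧
    ∀ α : ℤ,
      (∀ n : ℕ, 1 ≤ n → (fun x : ℤ => x ^ 2 + b * x + c)^[n] α ≠ 0) ∧
      Tendsto (fun N : ℕ =>
        ({p : ℕ | p ≤ N ∧ p.Prime ∧ ∃ n : ℕ, 1 ≤ n ∧
          (p : ℤ) ∣ (fun x : ℤ => x ^ 2 + b * x + c)^[n] α}.ncard : ℝ) /
            (Nat.primeCounting N : ℝ)) atTop (𝓝 0) := by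
  set f : ℤ[X] := X ^ 2 + C b * X + C c with hf
  have hm : f.Monic := by rw [hf]; monicity!
  have hd : f.natDegree = 2 := by rw [hf]; compute_degree!
  have hirr : ∀ n : ℕ, 1 ≤ n → Irreducible (FQ f n) := fun n hn => hstable n hn
  have hfe : (fun x : ℤ => f.eval x) = fun x : ℤ => x ^ 2 + b * x + c := by
    funext x; simp [hf]
  have hfQ : (fun x : ℚ => (f.map (Int.castRingHom ℚ)).eval x)
      = fun x : ℚ => x ^ 2 + (b : ℚ) * x + (c : ℚ) := by
    funext x; simp [hf]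
  have hw : ∀ γ : ℚ, (derivative (f.map (Int.castRingHom ℚ))).eval γ = 0 →
      (Set.range fun n : ℕ =>
        (fun x : ℚ => (f.map (Int.castRingHom ℚ)).eval x)^[n] γ).Infinite := by
    intro γ hγ
    have h1 : (2 : ℚ) * γ + b = 0 := by
      have : (derivative (f.map (Int.castRingHom ℚ))).eval γ = 2 * γ + b := by
        simp [hf]
        norm_num
      rw [← this]; exact hγ
    have h2 : γ = -(b : ℚ) / 2 := by linarith
    rw [hfQ, h2]
    exact hwander
  have hDens : DensStmt := Pool.Agent.Helper18.JO.dens (Pool.Agent.Helper64.JO.prime_bound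
      Pool.Agent.Helper35.JO.ideal_count Pool.Agent.Helper14.JO.selberg)
  have hO : OddPrimesStmt := Pool.Agent.Helper7.JO.oddPrimes
  have hg := good_of f hm hd hirr hw
  have hne : ∀ α : ℤ, ∀ n : ℕ, 1 ≤ n → (fun x : ℤ => x ^ 2 + b * x + c)^[n] α ≠ 0 := by
    intro α n hn h0
    apply hg.norat n hn (α : ℚ)
    rw [mem_V_iff' f hm hd]
    have h1 : (Fn f n).eval α = 0 := by rw [eval_Fn, hfe]; exact h0
    unfold FQ
    have h2 : aeval (algebraMap ℚ QQ (α : ℚ)) ((Fn f n).map (Int.castRingHom ℚ))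
        = algebraMap ℚ QQ (((Fn f n).eval α : ℤ) : ℚ) := by
      rw [aeval_algebraMap_apply]
      congr 1
      rw [coe_aeval_eq_eval, eval_intCast_map]
      simp
    rw [h2, h1]
    simp
  refine ⟨fun ε hε => ?_, fun h hh => ?_, fun α => ⟨hne α, ?_⟩⟩
  · obtain ⟨M, -, hM⟩ := uniform hDens hO f hm hd hirr hw ε hε
    rw [hfe] at hM
    exact ⟨M, hM⟩
  · have h1 := moving hDens hO f hm hd hirr hw h hh
    rw [hfe] at h1
    exact h1
  · have h := main hDens hO f hm hd hirr hw α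
    rw [hfe] at h
    refine h.congr fun N => ?_
    congr 3
    ext p
    simp only [Set.mem_ofPred_eq]
    constructor
    · rintro ⟨h1, h2, n, h3, -, h5⟩
      exact ⟨h1, h2, n, h3, h5⟩
    · rintro ⟨h1, h2, n, h3, h5⟩
      exact ⟨h1, h2, n, h3, hne α n h3, h5⟩

end Pool.Agent.Results.MP_4d96c9_nt.UniformDensityZero
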